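import Mathlib

/-!
# Taut embeddings into spheres

Definitions of critical points, Hessians, Morse functions, taut maps and spherically substantial
embeddings, for a smooth manifold `M` modelled on a normed space `E` (used with `E = ℝ^3`) and maps
to an inner product space `F` (used with `F = ℝ^7` and `F = ℝ^8`).
-/

noncomputable section

open scoped Manifold ContDiff
open Set Topology

namespace Pool.Agent.Work.MP_cd2c38_gt

section

variable (E : Type) [NormedAddCommGroup E] [NormedSpace ℝ E] {M : Type} [TopologicalSpace M]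
  [ChartedSpace E M] {F : Type} [NormedAddCommGroup F] [InnerProductSpace ℝ F]

/-- `x` is a critical point of `h : M → ℝ`: the differential of `h` vanishes at `x`. -/
def IsCriticalPt (h : M → ℝ) (x : M) : Prop :=
  mfderiv 𝓘(ℝ, E) 𝓘(ℝ, ℝ) h x = 0

/-- The second derivative at `x` of `h : M → ℝ` read in the chart of `M` at `x`. At a critical
point `x` this is the coordinate expression of the Hessian bilinear form of `h`. -/
def hessian (h : M → ℝ) (x : M) : E →L[ℝ] E →L[ℝ] ℝ :=
  fderiv ℝ (fderiv ℝ (h ∘ (chartAt E x).symm)) (chartAt E x x)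

/-- `h` is a Morse function: it is smooth and at each critical point the Hessian is
nondegenerate. -/
def IsMorse [IsManifold 𝓘(ℝ, E) ∞ M] (h : M → ℝ) : Prop :=
  ContMDiff 𝓘(ℝ, E) 𝓘(ℝ, ℝ) ∞ h ∧
    ∀ x : M, IsCriticalPt E h x → ∀ u, (∀ w, hessian E h x u w = 0) → u = 0

/-- `f : M → F` is taut, where `b` is the sum of the `ℤ/2` Betti numbers of `M`: every
Euclidean distance function `L_p (x) = |p - f x|^2` which is a Morse function has exactly `b`
critical points. -/
def IsTaut [CompactSpace M] [IsManifold 𝓘(ℝ, E) ∞ M] (b : ℕ) (f : M → F) : Prop :=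
  ∀ p : F, IsMorse E (fun x : M => ‖p - f x‖ ^ 2) →
    {x : M | IsCriticalPt E (fun x => ‖p - f x‖ ^ 2) x}.encard = b

/-- The differential of `f : M → F` at `x`, read in the chart of `M` at `x`. -/
def chartDeriv (f : M → F) (x : M) : E →L[ℝ] F :=
  fderiv ℝ (f ∘ (chartAt E x).symm) (chartAt E x x)

/-- `f : M → F` is a smooth embedding: a smooth map with injective differentials which is a
homeomorphism onto its image. -/
def IsSmoothEmb [IsManifold 𝓘(ℝ, E) ∞ M] (f : M → F) : Prop :=
  ContMDiff 𝓘(ℝ, E) 𝓘(ℝ, F) ∞ f ∧ (∀ x : M, Function.Injective (chartDeriv E f x)) ∧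
    IsEmbedding f

/-- The image of `f : M → F` lies in no affine hyperplane `{y | ⟪w, y⟫ = c}`. For a map into the
unit sphere this says in particular that the image lies in no hypersphere of the sphere. -/
def IsSubstantial {M : Type} (f : M → F) : Prop :=
  ∀ (w : F) (c : ℝ), w ≠ 0 → ∃ x : M, inner ℝ w (f x) ≠ c

end

end Pool.Agent.Work.MP_cd2c38_gt
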