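import Pool.Agent.Work.MP_cd2c38_gt.Main

/-!
# Explicit quadratic maps

The entries of the rotation matrix of the quaternion `a + b i + c j + d k` are the quadratic forms
`X11, ..., X33` below. Seven, respectively eight, of them (rescaled) give quadratic maps
`ℝ⁴ → ℝ^7` and `ℝ⁴ → ℝ^8` of constant norm on the unit sphere.
-/

noncomputable section

open scoped Manifold ContDiff RealInnerProductSpace
open Set Topology

namespace Pool.Agent.Work.MP_cd2c38_gt

/-- The operator on `ℝ⁴` with matrix `M`. -/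
def opM (M : Matrix (Fin 4) (Fin 4) ℝ) : E4 →L[ℝ] E4 :=
  LinearMap.toContinuousLinearMap (Matrix.toEuclideanLin M)

lemma inner_opM (M : Matrix (Fin 4) (Fin 4) ℝ) (v w : E4) :
    (⟪opM M v, w⟫ : ℝ) = ∑ i, (∑ j, M i j * v j) * w i := by
  rw [PiLp.inner_apply]
  refine Finset.sum_congr rfl fun i _ => ?_
  simp [opM, Matrix.toEuclideanLin, Matrix.toLpLin_apply, Matrix.mulVec, dotProduct, mul_comm]

lemma opM_symm (M : Matrix (Fin 4) (Fin 4) ℝ) (hM : ∀ i j, M i j = M j i) (v w : E4) :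
    (⟪opM M v, w⟫ : ℝ) = ⟪v, opM M w⟫ := by
  rw [inner_opM, real_inner_comm, inner_opM]
  simp only [Finset.sum_mul]
  rw [Finset.sum_comm]
  refine Finset.sum_congr rfl fun i _ => Finset.sum_congr rfl fun j _ => ?_
  rw [hM j i]
  ring

lemma inner_self_E4 (v : E4) :
    (⟪v, v⟫ : ℝ) = v 0 ^ 2 + v 1 ^ 2 + v 2 ^ 2 + v 3 ^ 2 := by
  rw [PiLp.inner_apply, Fin.sum_univ_four]
  simp

/-- The matrices of the quadratic forms `X11, ..., X33`. -/
def MX12 : Matrix (Fin 4) (Fin 4) ℝ := !![0, 0, 0, -1; 0, 0, 1, 0; 0, 1, 0, 0; -1, 0, 0, 0]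
def MX13 : Matrix (Fin 4) (Fin 4) ℝ := !![0, 0, 1, 0; 0, 0, 0, 1; 1, 0, 0, 0; 0, 1, 0, 0]
def MX21 : Matrix (Fin 4) (Fin 4) ℝ := !![0, 0, 0, 1; 0, 0, 1, 0; 0, 1, 0, 0; 1, 0, 0, 0]
def MX22 : Matrix (Fin 4) (Fin 4) ℝ := !![1, 0, 0, 0; 0, -1, 0, 0; 0, 0, 1, 0; 0, 0, 0, -1]
def MX23 : Matrix (Fin 4) (Fin 4) ℝ := !![0, -1, 0, 0; -1, 0, 0, 0; 0, 0, 0, 1; 0, 0, 1, 0]
def MX31 : Matrix (Fin 4) (Fin 4) ℝ := !![0, 0, -1, 0; 0, 0, 0, 1; -1, 0, 0, 0; 0, 1, 0, 0]
def MX32 : Matrix (Fin 4) (Fin 4) ℝ := !![0, 1, 0, 0; 1, 0, 0, 0; 0, 0, 0, 1; 0, 0, 1, 0]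
def MX33 : Matrix (Fin 4) (Fin 4) ℝ := !![1, 0, 0, 0; 0, -1, 0, 0; 0, 0, -1, 0; 0, 0, 0, 1]

lemma qX12 (v : E4) : (⟪opM MX12 v, v⟫ : ℝ) = 2 * (v 1 * v 2 - v 0 * v 3) := by
  rw [inner_opM]; simp [Fin.sum_univ_four, MX12]; ring
lemma qX13 (v : E4) : (⟪opM MX13 v, v⟫ : ℝ) = 2 * (v 1 * v 3 + v 0 * v 2) := by
  rw [inner_opM]; simp [Fin.sum_univ_four, MX13]; ring
lemma qX21 (v : E4) : (⟪opM MX21 v, v⟫ : ℝ) = 2 * (v 1 * v 2 + v 0 * v 3) := by
  rw [inner_opM]; simp [Fin.sum_univ_four, MX21]; ring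
lemma qX22 (v : E4) : (⟪opM MX22 v, v⟫ : ℝ) = v 0 ^ 2 - v 1 ^ 2 + v 2 ^ 2 - v 3 ^ 2 := by
  rw [inner_opM]; simp [Fin.sum_univ_four, MX22]; ring
lemma qX23 (v : E4) : (⟪opM MX23 v, v⟫ : ℝ) = 2 * (v 2 * v 3 - v 0 * v 1) := by
  rw [inner_opM]; simp [Fin.sum_univ_four, MX23]; ring
lemma qX31 (v : E4) : (⟪opM MX31 v, v⟫ : ℝ) = 2 * (v 1 * v 3 - v 0 * v 2) := by
  rw [inner_opM]; simp [Fin.sum_univ_four, MX31]; ring
lemma qX32 (v : E4) : (⟪opM MX32 v, v⟫ : ℝ) = 2 * (v 2 * v 3 + v 0 * v 1) := by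
  rw [inner_opM]; simp [Fin.sum_univ_four, MX32]; ring
lemma qX33 (v : E4) : (⟪opM MX33 v, v⟫ : ℝ) = v 0 ^ 2 - v 1 ^ 2 - v 2 ^ 2 + v 3 ^ 2 := by
  rw [inner_opM]; simp [Fin.sum_univ_four, MX33]; ring

lemma sMX12 : ∀ i j, MX12 i j = MX12 j i := by
  intro i j; fin_cases i <;> fin_cases j <;> simp [MX12]
lemma sMX13 : ∀ i j, MX13 i j = MX13 j i := by
  intro i j; fin_cases i <;> fin_cases j <;> simp [MX13]
lemma sMX21 : ∀ i j, MX21 i j = MX21 j i := by
  intro i j; fin_cases i <;> fin_cases j <;> simp [MX21]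
lemma sMX22 : ∀ i j, MX22 i j = MX22 j i := by
  intro i j; fin_cases i <;> fin_cases j <;> simp [MX22]
lemma sMX23 : ∀ i j, MX23 i j = MX23 j i := by
  intro i j; fin_cases i <;> fin_cases j <;> simp [MX23]
lemma sMX31 : ∀ i j, MX31 i j = MX31 j i := by
  intro i j; fin_cases i <;> fin_cases j <;> simp [MX31]
lemma sMX32 : ∀ i j, MX32 i j = MX32 j i := by
  intro i j; fin_cases i <;> fin_cases j <;> simp [MX32]
lemma sMX33 : ∀ i j, MX33 i j = MX33 j i := by
  intro i j; fin_cases i <;> fin_cases j <;> simp [MX33]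

/-- If all products of coordinates agree, the vectors agree up to sign. -/
lemma eq_or_eq_neg_of_mul (v w : E4) (h : ∀ i j, v i * v j = w i * w j) : w = v ∨ w = -v := by
  by_cases hw : w = 0
  · left
    ext i
    have := h i i
    rw [hw] at this ⊢
    simp at this ⊢
    exact this.symm
  · obtain ⟨i, hi⟩ : ∃ i, w i ≠ 0 := by
      by_contra hcon
      push Not at hcon
      exact hw (by ext i; simpa using hcon i)
    have h1 : (v i - w i) * (v i + w i) = 0 := by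
      have := h i i
      ring_nf
      linarith [this]
    rcases mul_eq_zero.1 h1 with h2 | h2
    · left
      ext j
      have h3 := h i j
      have h4 : v i = w i := by linarith
      rw [h4] at h3
      exact (mul_left_cancel₀ hi h3).symm
    · right
      ext j
      have h3 := h i j
      have h4 : v i = - w i := by linarith
      rw [h4] at h3
      have h5 : w i * (-v j) = w i * w j := by linarith
      have h6 := mul_left_cancel₀ hi h5
      simp
      linarith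

/-- The products of the coordinates are determined by the norm and the forms `Xij`; the forms `X11`
and `X12` are determined by the others through the cofactor relations. -/
lemma eq_or_eq_neg_of_forms (v w : E4)
    (hv : v 0 ^ 2 + v 1 ^ 2 + v 2 ^ 2 + v 3 ^ 2 = 1)
    (hw : w 0 ^ 2 + w 1 ^ 2 + w 2 ^ 2 + w 3 ^ 2 = 1)
    (h12 : v 1 * v 2 - v 0 * v 3 = w 1 * w 2 - w 0 * w 3)
    (h13 : v 1 * v 3 + v 0 * v 2 = w 1 * w 3 + w 0 * w 2)
    (h21 : v 1 * v 2 + v 0 * v 3 = w 1 * w 2 + w 0 * w 3)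
    (h22 : v 0 ^ 2 - v 1 ^ 2 + v 2 ^ 2 - v 3 ^ 2 = w 0 ^ 2 - w 1 ^ 2 + w 2 ^ 2 - w 3 ^ 2)
    (h23 : v 2 * v 3 - v 0 * v 1 = w 2 * w 3 - w 0 * w 1)
    (h31 : v 1 * v 3 - v 0 * v 2 = w 1 * w 3 - w 0 * w 2)
    (h32 : v 2 * v 3 + v 0 * v 1 = w 2 * w 3 + w 0 * w 1)
    (h33 : v 0 ^ 2 - v 1 ^ 2 - v 2 ^ 2 + v 3 ^ 2 = w 0 ^ 2 - w 1 ^ 2 - w 2 ^ 2 + w 3 ^ 2) :
    w = v ∨ w = -v := by
  have h11 : v 0 ^ 2 + v 1 ^ 2 - v 2 ^ 2 - v 3 ^ 2 = w 0 ^ 2 + w 1 ^ 2 - w 2 ^ 2 - w 3 ^ 2 := by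
    have e1 : v 0 ^ 2 + v 1 ^ 2 - v 2 ^ 2 - v 3 ^ 2
        = (v 0 ^ 2 - v 1 ^ 2 + v 2 ^ 2 - v 3 ^ 2) * (v 0 ^ 2 - v 1 ^ 2 - v 2 ^ 2 + v 3 ^ 2)
          - 4 * (v 2 * v 3 - v 0 * v 1) * (v 2 * v 3 + v 0 * v 1) := by
      linear_combination (-(v 0 ^ 2 + v 1 ^ 2 - v 2 ^ 2 - v 3 ^ 2)) * hv
    have e2 : w 0 ^ 2 + w 1 ^ 2 - w 2 ^ 2 - w 3 ^ 2
        = (w 0 ^ 2 - w 1 ^ 2 + w 2 ^ 2 - w 3 ^ 2) * (w 0 ^ 2 - w 1 ^ 2 - w 2 ^ 2 + w 3 ^ 2)
          - 4 * (w 2 * w 3 - w 0 * w 1) * (w 2 * w 3 + w 0 * w 1) := by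
      linear_combination (-(w 0 ^ 2 + w 1 ^ 2 - w 2 ^ 2 - w 3 ^ 2)) * hw
    rw [e1, e2, h22, h33, h23, h32]
  apply eq_or_eq_neg_of_mul
  intro i j
  fin_cases i <;> fin_cases j <;> simp <;> linarith

/-- Test vectors used to compare coefficients of quadratic forms. -/
def tv (a b c d : ℝ) : E4 := WithLp.toLp 2 ![a, b, c, d]

@[simp] lemma tv0 (a b c d : ℝ) : tv a b c d 0 = a := rfl
@[simp] lemma tv1 (a b c d : ℝ) : tv a b c d 1 = b := rfl
@[simp] lemma tv2 (a b c d : ℝ) : tv a b c d 2 = c := rfl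
@[simp] lemma tv3 (a b c d : ℝ) : tv a b c d 3 = d := rfl

/-- The operators of the quadratic map `ℝ⁴ → ℝ^7`
`v ↦ (X13, X21, X22, √2 X23, X31, X32, √2 X33) / √3`. -/
def Q7 : Fin 7 → (E4 →L[ℝ] E4) :=
  ![√(1 / 3) • opM MX13, √(1 / 3) • opM MX21, √(1 / 3) • opM MX22, √(2 / 3) • opM MX23,
    √(1 / 3) • opM MX31, √(1 / 3) • opM MX32, √(2 / 3) • opM MX33]

/-- The quadratic map `ℝ⁴ → ℝ^7` inducing a taut embedding `RP3 → S^6`. -/
def data7 : QuadData 6 where
  Q := Q7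
  symm := by
    intro k x y
    fin_cases k <;>
      simp only [Q7, Fin.mk_zero, Fin.mk_one, Matrix.cons_val_zero, Matrix.cons_val_one,
        Fin.reduceFinMk, Matrix.cons_val, smul_apply, real_inner_smul_left,
        real_inner_smul_right] <;>
      congr 1
    · exact opM_symm _ sMX13 _ _
    · exact opM_symm _ sMX21 _ _
    · exact opM_symm _ sMX22 _ _
    · exact opM_symm _ sMX23 _ _
    · exact opM_symm _ sMX31 _ _
    · exact opM_symm _ sMX32 _ _
    · exact opM_symm _ sMX33 _ _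
  norm := by
    intro v
    have h1 : √(1 / 3 : ℝ) ^ 2 = 1 / 3 := Real.sq_sqrt (by norm_num)
    have h2 : √(2 / 3 : ℝ) ^ 2 = 2 / 3 := Real.sq_sqrt (by norm_num)
    rw [Fin.sum_univ_seven]
    simp only [Q7, Matrix.cons_val_zero, Matrix.cons_val_one, Matrix.cons_val, smul_apply,
      real_inner_smul_left, mul_pow, h1, h2, qX13, qX21, qX22, qX23, qX31, qX32, qX33,
      inner_self_E4]
    ring
  inj := by
    intro v w hv hw h
    have s1 : √(1 / 3 : ℝ) ≠ 0 := by positivity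
    have s2 : √(2 / 3 : ℝ) ≠ 0 := by positivity
    rw [inner_self_E4] at hv hw
    have g0 := h 0
    have g1 := h 1
    have g2 := h 2
    have g3 := h 3
    have g4 := h 4
    have g5 := h 5
    have g6 := h 6
    simp only [Q7, Matrix.cons_val_zero, Matrix.cons_val_one, Matrix.cons_val, smul_apply,
      real_inner_smul_left, qX13, qX21, qX22, qX23, qX31, qX32, qX33] at g0 g1 g2 g3 g4 g5 g6
    have k0 := mul_left_cancel₀ s1 g0
    have k1 := mul_left_cancel₀ s1 g1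
    have k2 := mul_left_cancel₀ s1 g2
    have k3 := mul_left_cancel₀ s2 g3
    have k4 := mul_left_cancel₀ s1 g4
    have k5 := mul_left_cancel₀ s1 g5
    have k6 := mul_left_cancel₀ s2 g6
    have h12 : v 1 * v 2 - v 0 * v 3 = w 1 * w 2 - w 0 * w 3 := by
      have e1 : v 1 * v 2 - v 0 * v 3
          = (v 2 * v 3 - v 0 * v 1) * (2 * (v 1 * v 3 - v 0 * v 2))
            - (v 1 * v 2 + v 0 * v 3) * (v 0 ^ 2 - v 1 ^ 2 - v 2 ^ 2 + v 3 ^ 2) := by
        linear_combination (-(v 1 * v 2 - v 0 * v 3)) * hv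
      have e2 : w 1 * w 2 - w 0 * w 3
          = (w 2 * w 3 - w 0 * w 1) * (2 * (w 1 * w 3 - w 0 * w 2))
            - (w 1 * w 2 + w 0 * w 3) * (w 0 ^ 2 - w 1 ^ 2 - w 2 ^ 2 + w 3 ^ 2) := by
        linear_combination (-(w 1 * w 2 - w 0 * w 3)) * hw
      have k3' : v 2 * v 3 - v 0 * v 1 = w 2 * w 3 - w 0 * w 1 := by linarith
      have k1' : v 1 * v 2 + v 0 * v 3 = w 1 * w 2 + w 0 * w 3 := by linarith
      rw [e1, e2, k3', k4, k1', k6]
    exact eq_or_eq_neg_of_forms v w hv hw h12 (by linarith) (by linarith) k2 (by linarith)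
      (by linarith) (by linarith) k6
  sub := by
    intro p c h
    have s1 : √(1 / 3 : ℝ) ≠ 0 := by positivity
    have s2 : √(2 / 3 : ℝ) ≠ 0 := by positivity
    have key := fun v => (Fin.sum_univ_seven (fun k => p k * (⟪Q7 k v, v⟫ : ℝ))).symm.trans (h v)
    simp only [Q7, Matrix.cons_val_zero, Matrix.cons_val_one,
      Matrix.cons_val, smul_apply, real_inner_smul_left, qX13, qX21, qX22, qX23, qX31, qX32, qX33,
      inner_self_E4] at key
    have a0 := key (tv 1 0 0 0)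
    have a1 := key (tv 0 1 0 0)
    have a2 := key (tv 0 0 1 0)
    have a3 := key (tv 0 0 0 1)
    have b01 := key (tv 1 1 0 0)
    have b02 := key (tv 1 0 1 0)
    have b03 := key (tv 1 0 0 1)
    have b12 := key (tv 0 1 1 0)
    have b13 := key (tv 0 1 0 1)
    have b23 := key (tv 0 0 1 1)
    simp only [tv0, tv1, tv2, tv3] at a0 a1 a2 a3 b01 b02 b03 b12 b13 b23
    have z0 : p 0 * √(1 / 3) = 0 := by linear_combination (b02 + b13) / 4 - (a0 + a1) / 2
    have z1 : p 1 * √(1 / 3) = 0 := by linear_combination (b03 + b12) / 4 - (a0 + a1) / 2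
    have z2 : p 2 * √(1 / 3) = 0 := by linear_combination (a0 - a1 + a2 - a3) / 4
    have z3 : p 3 * √(2 / 3) = 0 := by linear_combination (b23 - b01) / 4
    have z4 : p 4 * √(1 / 3) = 0 := by linear_combination (b13 - b02) / 4 + z2
    have z5 : p 5 * √(1 / 3) = 0 := by linear_combination (b01 + b23) / 4 - (a0 + a1) / 2
    have z6 : p 6 * √(2 / 3) = 0 := by linear_combination (a0 - a1 - a2 + a3) / 4
    ext k
    fin_cases k
    · exact (mul_eq_zero.1 z0).resolve_right s1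
    · exact (mul_eq_zero.1 z1).resolve_right s1
    · exact (mul_eq_zero.1 z2).resolve_right s1
    · exact (mul_eq_zero.1 z3).resolve_right s2
    · exact (mul_eq_zero.1 z4).resolve_right s1
    · exact (mul_eq_zero.1 z5).resolve_right s1
    · exact (mul_eq_zero.1 z6).resolve_right s2

/-- The operators of the quadratic map `ℝ⁴ → ℝ^8`
`v ↦ (X12, X13, X21, X31, √2 X22, √2 X23, √2 X32, √2 X33) / 2`. -/
def Q8 : Fin 8 → (E4 →L[ℝ] E4) :=
  ![√(1 / 4) • opM MX12, √(1 / 4) • opM MX13, √(1 / 4) • opM MX21, √(1 / 4) • opM MX31,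
    √(1 / 2) • opM MX22, √(1 / 2) • opM MX23, √(1 / 2) • opM MX32, √(1 / 2) • opM MX33]

/-- The quadratic map `ℝ⁴ → ℝ^8` inducing a taut embedding `RP3 → S^7`. -/
def data8 : QuadData 7 where
  Q := Q8
  symm := by
    intro k x y
    fin_cases k <;>
      simp only [Q8, Fin.mk_zero, Fin.mk_one, Matrix.cons_val_zero, Matrix.cons_val_one,
        Fin.reduceFinMk, Matrix.cons_val, smul_apply, real_inner_smul_left,
        real_inner_smul_right] <;>
      congr 1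
    · exact opM_symm _ sMX12 _ _
    · exact opM_symm _ sMX13 _ _
    · exact opM_symm _ sMX21 _ _
    · exact opM_symm _ sMX31 _ _
    · exact opM_symm _ sMX22 _ _
    · exact opM_symm _ sMX23 _ _
    · exact opM_symm _ sMX32 _ _
    · exact opM_symm _ sMX33 _ _
  norm := by
    intro v
    have h1 : √(1 / 4 : ℝ) ^ 2 = 1 / 4 := Real.sq_sqrt (by norm_num)
    have h2 : √(1 / 2 : ℝ) ^ 2 = 1 / 2 := Real.sq_sqrt (by norm_num)
    rw [Fin.sum_univ_eight]
    simp only [Q8, Matrix.cons_val_zero, Matrix.cons_val_one, Matrix.cons_val, smul_apply,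
      real_inner_smul_left, mul_pow, h1, h2, qX12, qX13, qX21, qX22, qX23, qX31, qX32, qX33,
      inner_self_E4]
    ring
  inj := by
    intro v w hv hw h
    have s1 : √(1 / 4 : ℝ) ≠ 0 := by positivity
    have s2 : √(1 / 2 : ℝ) ≠ 0 := by positivity
    rw [inner_self_E4] at hv hw
    have g0 := h 0
    have g1 := h 1
    have g2 := h 2
    have g3 := h 3
    have g4 := h 4
    have g5 := h 5
    have g6 := h 6
    have g7 := h 7
    simp only [Q8, Matrix.cons_val_zero, Matrix.cons_val_one, Matrix.cons_val, smul_apply,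
      real_inner_smul_left, qX12, qX13, qX21, qX22, qX23, qX31, qX32, qX33]
      at g0 g1 g2 g3 g4 g5 g6 g7
    have k0 := mul_left_cancel₀ s1 g0
    have k1 := mul_left_cancel₀ s1 g1
    have k2 := mul_left_cancel₀ s1 g2
    have k3 := mul_left_cancel₀ s1 g3
    have k4 := mul_left_cancel₀ s2 g4
    have k5 := mul_left_cancel₀ s2 g5
    have k6 := mul_left_cancel₀ s2 g6
    have k7 := mul_left_cancel₀ s2 g7
    exact eq_or_eq_neg_of_forms v w hv hw (by linarith) (by linarith) (by linarith) k4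
      (by linarith) (by linarith) (by linarith) k7
  sub := by
    intro p c h
    have s1 : √(1 / 4 : ℝ) ≠ 0 := by positivity
    have s2 : √(1 / 2 : ℝ) ≠ 0 := by positivity
    have key := fun v => (Fin.sum_univ_eight (fun k => p k * (⟪Q8 k v, v⟫ : ℝ))).symm.trans (h v)
    simp only [Q8, Matrix.cons_val_zero, Matrix.cons_val_one,
      Matrix.cons_val, smul_apply, real_inner_smul_left, qX12, qX13, qX21, qX22, qX23, qX31, qX32,
      qX33, inner_self_E4] at key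
    have a0 := key (tv 1 0 0 0)
    have a1 := key (tv 0 1 0 0)
    have a2 := key (tv 0 0 1 0)
    have a3 := key (tv 0 0 0 1)
    have b01 := key (tv 1 1 0 0)
    have b02 := key (tv 1 0 1 0)
    have b03 := key (tv 1 0 0 1)
    have b12 := key (tv 0 1 1 0)
    have b13 := key (tv 0 1 0 1)
    have b23 := key (tv 0 0 1 1)
    simp only [tv0, tv1, tv2, tv3] at a0 a1 a2 a3 b01 b02 b03 b12 b13 b23
    have z4 : p 4 * √(1 / 2) = 0 := by linear_combination (a0 - a1 + a2 - a3) / 4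
    have z7 : p 7 * √(1 / 2) = 0 := by linear_combination (a0 - a1 - a2 + a3) / 4
    have z5 : p 5 * √(1 / 2) = 0 := by linear_combination (b23 - b01) / 4
    have z6 : p 6 * √(1 / 2) = 0 := by linear_combination (b01 + b23) / 4 - (a0 + a1) / 2
    have z1 : p 1 * √(1 / 4) = 0 := by linear_combination (b02 + b13) / 4 - (a0 + a1) / 2
    have z3 : p 3 * √(1 / 4) = 0 := by linear_combination (b13 - b02) / 4 + z4
    have z2 : p 2 * √(1 / 4) = 0 := by linear_combination (b03 + b12) / 4 - (a0 + a1) / 2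
    have z0 : p 0 * √(1 / 4) = 0 := by linear_combination (b12 - b03) / 4 + z7
    ext k
    fin_cases k
    · exact (mul_eq_zero.1 z0).resolve_right s1
    · exact (mul_eq_zero.1 z1).resolve_right s1
    · exact (mul_eq_zero.1 z2).resolve_right s1
    · exact (mul_eq_zero.1 z3).resolve_right s1
    · exact (mul_eq_zero.1 z4).resolve_right s2
    · exact (mul_eq_zero.1 z5).resolve_right s2
    · exact (mul_eq_zero.1 z6).resolve_right s2
    · exact (mul_eq_zero.1 z7).resolve_right s2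

end Pool.Agent.Work.MP_cd2c38_gt
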