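import Pool.Agent.Work.MP_cd2c38_gt.Rayleigh

/-!
# Taut embeddings of `RP3` from quadratic maps

A quadratic map `q : ℝ⁴ → ℝ^(n+1)` with `|q v| = |v|^2` which is injective on the unit sphere up to
sign induces a taut embedding `RP3 → S^n`.
-/

noncomputable section

open scoped Manifold ContDiff RealInnerProductSpace
open Set Topology

namespace Pool.Agent.Work.MP_cd2c38_gt

lemma ray_smul (A : E4 →L[ℝ] E4) (v : E4) {t : ℝ} (ht : t ≠ 0) : ray A (t • v) = ray A v := by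
  unfold ray
  rw [map_smul, real_inner_smul_left, real_inner_smul_right, real_inner_smul_left,
    real_inner_smul_right, ← mul_assoc, ← mul_assoc]
  exact mul_div_mul_left _ _ (mul_ne_zero ht ht)

/-- Data for a quadratic map `q : ℝ⁴ → ℝ^(n+1)`, `q v = (⟪Q k v, v⟫)_k`. -/
structure QuadData (n : ℕ) where
  Q : Fin (n + 1) → (E4 →L[ℝ] E4)
  symm : ∀ k, ∀ x y : E4, ⟪Q k x, y⟫ = (⟪x, Q k y⟫ : ℝ)
  norm : ∀ v : E4, ∑ k, (⟪Q k v, v⟫ : ℝ) ^ 2 = (⟪v, v⟫ : ℝ) ^ 2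
  inj : ∀ v w : E4, (⟪v, v⟫ : ℝ) = 1 → (⟪w, w⟫ : ℝ) = 1 →
    (∀ k, (⟪Q k v, v⟫ : ℝ) = ⟪Q k w, w⟫) → w = v ∨ w = -v
  sub : ∀ (p : EuclideanSpace ℝ (Fin (n + 1))) (c : ℝ),
    (∀ v : E4, ∑ k, p k * (⟪Q k v, v⟫ : ℝ) = c * ⟪v, v⟫) → p = 0

variable {n : ℕ} (D : QuadData n)

/-- The map `RP3 → ℝ^(n+1)`, `[v] ↦ q v / |v|^2`. -/
def QuadData.emb (x : RP3) : EuclideanSpace ℝ (Fin (n + 1)) :=
  WithLp.toLp 2 (fun k => ray (D.Q k) (Projectivization.rep x))

lemma QuadData.emb_mk (v : E4) (hv : v ≠ 0) :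
    D.emb (RP3.mk v hv) = WithLp.toLp 2 (fun k => ray (D.Q k) v) := by
  obtain ⟨t, ht, h⟩ := rep_mk v hv
  ext k
  simp only [QuadData.emb, h]
  exact ray_smul _ _ ht

lemma QuadData.emb_mk_apply (v : E4) (hv : v ≠ 0) (k : Fin (n + 1)) :
    D.emb (RP3.mk v hv) k = ray (D.Q k) v := by
  rw [D.emb_mk]

lemma QuadData.sum_ray_sq (v : E4) (hv : v ≠ 0) : ∑ k, (ray (D.Q k) v) ^ 2 = 1 := by
  unfold ray
  simp only [div_pow]
  rw [← Finset.sum_div, D.norm, div_self]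
  exact pow_ne_zero 2 (inner_self_ne hv)

lemma QuadData.norm_emb (x : RP3) : ‖D.emb x‖ = 1 := by
  obtain ⟨v, hv, rfl⟩ := exists_mk x
  rw [EuclideanSpace.norm_eq]
  simp only [D.emb_mk_apply, Real.norm_eq_abs, sq_abs]
  rw [D.sum_ray_sq v hv, Real.sqrt_one]

lemma QuadData.emb_comp (i : Fin 4) :
    D.emb ∘ ofAff i = fun z => WithLp.toLp 2 (fun k => rayChart (D.Q k) i z) := by
  ext z k
  exact D.emb_mk_apply _ _ k

lemma QuadData.contDiff_emb (i : Fin 4) : ContDiff ℝ ∞ (D.emb ∘ ofAff i) := by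
  rw [D.emb_comp]
  refine (PiLp.contDiff_toLp).comp ?_
  exact contDiff_pi.2 fun k => (contDiff_rayChart (D.Q k) i).of_le le_top

lemma QuadData.fderiv_emb_apply (i : Fin 4) (z δ : E3) (k : Fin (n + 1)) :
    fderiv ℝ (D.emb ∘ ofAff i) z δ k = fderiv ℝ (rayChart (D.Q k) i) z δ := by
  have hd : DifferentiableAt ℝ (D.emb ∘ ofAff i) z :=
    ((D.contDiff_emb i).differentiable (by norm_num)) z
  have h1 : HasFDerivAt (fun z => (EuclideanSpace.proj (𝕜 := ℝ) k) ((D.emb ∘ ofAff i) z))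
      ((EuclideanSpace.proj (𝕜 := ℝ) k).comp (fderiv ℝ (D.emb ∘ ofAff i) z)) z :=
    (EuclideanSpace.proj (𝕜 := ℝ) k).hasFDerivAt.comp z hd.hasFDerivAt
  have h2 : (fun z => (EuclideanSpace.proj (𝕜 := ℝ) k) ((D.emb ∘ ofAff i) z))
      = rayChart (D.Q k) i := by
    ext z
    exact D.emb_mk_apply _ _ k
  rw [h2] at h1
  rw [h1.fderiv]
  rfl

/-- Two orthogonal nonzero vectors `v, w` cannot satisfy `⟪Q k v, w⟫ = 0` for all `k`. -/
lemma QuadData.polar (v w : E4) (hv : v ≠ 0) (hvw : (⟪v, w⟫ : ℝ) = 0)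
    (h : ∀ k, (⟪D.Q k v, w⟫ : ℝ) = 0) : w = 0 := by
  by_contra hw
  have hexp : ∀ k, (⟪D.Q k (v + w), v + w⟫ : ℝ) = ⟪D.Q k v, v⟫ + ⟪D.Q k w, w⟫ := by
    intro k
    rw [map_add, inner_add_left, inner_add_right, inner_add_right, h k, D.symm k w v,
      real_inner_comm (D.Q k v) w, h k]
    ring
  have hexp0 : (⟪v + w, v + w⟫ : ℝ) = ⟪v, v⟫ + ⟪w, w⟫ := by
    rw [inner_add_left, inner_add_right, inner_add_right, hvw, real_inner_comm v w, hvw]
    ring
  have h1 := D.norm (v + w)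
  simp only [hexp, hexp0] at h1
  have hV := D.norm v
  have hW := D.norm w
  have hcross : ∑ k, (⟪D.Q k v, v⟫ : ℝ) * ⟪D.Q k w, w⟫ = ⟪v, v⟫ * ⟪w, w⟫ := by
    have e : ∑ k, ((⟪D.Q k v, v⟫ : ℝ) + ⟪D.Q k w, w⟫) ^ 2
        = ∑ k, (⟪D.Q k v, v⟫ : ℝ) ^ 2 + ∑ k, (⟪D.Q k w, w⟫ : ℝ) ^ 2
          + 2 * ∑ k, (⟪D.Q k v, v⟫ : ℝ) * ⟪D.Q k w, w⟫ := by
      rw [Finset.mul_sum, ← Finset.sum_add_distrib, ← Finset.sum_add_distrib]
      refine Finset.sum_congr rfl fun k _ => ?_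
      ring
    rw [e, hV, hW] at h1
    nlinarith
  have hzero : ∑ k, ((⟪D.Q k v, v⟫ : ℝ) * ⟪w, w⟫ - ⟪D.Q k w, w⟫ * ⟪v, v⟫) ^ 2 = 0 := by
    have e : ∑ k, ((⟪D.Q k v, v⟫ : ℝ) * ⟪w, w⟫ - ⟪D.Q k w, w⟫ * ⟪v, v⟫) ^ 2
        = (⟪w, w⟫ : ℝ) ^ 2 * ∑ k, (⟪D.Q k v, v⟫ : ℝ) ^ 2
          + (⟪v, v⟫ : ℝ) ^ 2 * ∑ k, (⟪D.Q k w, w⟫ : ℝ) ^ 2
          - 2 * ⟪v, v⟫ * ⟪w, w⟫ * ∑ k, (⟪D.Q k v, v⟫ : ℝ) * ⟪D.Q k w, w⟫ := by
      rw [Finset.mul_sum, Finset.mul_sum, Finset.mul_sum, ← Finset.sum_add_distrib,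
        ← Finset.sum_sub_distrib]
      refine Finset.sum_congr rfl fun k _ => ?_
      ring
    rw [e, hV, hW, hcross]
    ring
  have heq : ∀ k, (⟪D.Q k v, v⟫ : ℝ) * ⟪w, w⟫ = ⟪D.Q k w, w⟫ * ⟪v, v⟫ := by
    intro k
    have := (Finset.sum_eq_zero_iff_of_nonneg (fun k _ => sq_nonneg _)).1 hzero k
      (Finset.mem_univ k)
    have := pow_eq_zero_iff (two_ne_zero) |>.1 this
    linarith
  have hv' : (0 : ℝ) < ⟪v, v⟫ := real_inner_self_pos.2 hv
  have hw' : (0 : ℝ) < ⟪w, w⟫ := real_inner_self_pos.2 hw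
  have hnv : ‖v‖ ≠ 0 := norm_ne_zero_iff.2 hv
  have hnw : ‖w‖ ≠ 0 := norm_ne_zero_iff.2 hw
  have key := D.inj (‖v‖⁻¹ • v) (‖w‖⁻¹ • w)
    (by
      rw [real_inner_smul_left, real_inner_smul_right, real_inner_self_eq_norm_sq]
      field_simp)
    (by
      rw [real_inner_smul_left, real_inner_smul_right, real_inner_self_eq_norm_sq]
      field_simp)
    (by
      intro k
      rw [map_smul, map_smul, real_inner_smul_left, real_inner_smul_right, real_inner_smul_left,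
        real_inner_smul_right]
      have := heq k
      rw [real_inner_self_eq_norm_sq, real_inner_self_eq_norm_sq] at this
      field_simp
      linarith)
  have hor : (⟪‖v‖⁻¹ • v, ‖w‖⁻¹ • w⟫ : ℝ) = 0 := by
    rw [real_inner_smul_left, real_inner_smul_right, hvw]
    ring
  have hself : (⟪‖v‖⁻¹ • v, ‖v‖⁻¹ • v⟫ : ℝ) = 1 := by
    rw [real_inner_smul_left, real_inner_smul_right, real_inner_self_eq_norm_sq]
    field_simp
  rcases key with hk | hk
  · rw [hk, hself] at hor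
    exact one_ne_zero hor
  · rw [hk, inner_neg_right, hself] at hor
    norm_num at hor

lemma QuadData.injective_fderiv (i : Fin 4) (z : E3) :
    Function.Injective (fderiv ℝ (D.emb ∘ ofAff i) z) := by
  rw [injective_iff_map_eq_zero]
  intro δ hδ
  set v := homog i z with hvdef
  have hv : v ≠ 0 := homog_ne_zero i z
  have hvv := inner_self_ne hv
  have h1 : ∀ k, (⟪D.Q k v - ray (D.Q k) v • v, ins i δ⟫ : ℝ) = 0 := by
    intro k
    have h2 := D.fderiv_emb_apply i z δ k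
    rw [hδ, fderiv_rayChart (D.Q k) (D.symm k)] at h2
    have h3 : (2 / ⟪v, v⟫ : ℝ) ≠ 0 := div_ne_zero two_ne_zero hvv
    have h4 : (0 : ℝ) = 2 / ⟪v, v⟫ * ⟪D.Q k v - ray (D.Q k) v • v, ins i δ⟫ := h2
    exact (mul_eq_zero.1 h4.symm).resolve_left h3
  have h2 : ∀ k, (⟪D.Q k v - ray (D.Q k) v • v, v⟫ : ℝ) = 0 := by
    intro k
    rw [inner_sub_left, real_inner_smul_left]
    unfold ray
    field_simp
    ring
  set c : ℝ := ⟪v, ins i δ⟫ / ⟪v, v⟫ with hc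
  have hw : (⟪v, ins i δ - c • v⟫ : ℝ) = 0 := by
    rw [inner_sub_right, real_inner_smul_right, hc]
    field_simp
    ring
  have hQ : ∀ k, (⟪D.Q k v, ins i δ - c • v⟫ : ℝ) = 0 := by
    intro k
    have e : (⟪D.Q k v, ins i δ - c • v⟫ : ℝ)
        = ⟪D.Q k v - ray (D.Q k) v • v, ins i δ⟫
          - c * ⟪D.Q k v - ray (D.Q k) v • v, v⟫
          + ray (D.Q k) v * ⟪v, ins i δ - c • v⟫ := by
      simp only [inner_sub_left, inner_sub_right, real_inner_smul_left, real_inner_smul_right]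
      ring
    rw [e, h1, h2, hw]
    ring
  have h3 := D.polar v (ins i δ - c • v) hv hw hQ
  have h4 : ins i δ = c • v := sub_eq_zero.1 h3
  have h5 : c = 0 := by
    have := congrArg (fun u : E4 => u i) h4
    simp [hvdef] at this
    exact this.symm
  rw [h5, zero_smul] at h4
  ext j
  have := congrArg (fun u : E4 => u (i.succAbove j)) h4
  simpa using this

lemma QuadData.injective_emb : Function.Injective D.emb := by
  intro x y hxy
  obtain ⟨v, hv, rfl⟩ := exists_mk x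
  obtain ⟨w, hw, rfl⟩ := exists_mk y
  have h1 : ∀ k, ray (D.Q k) v = ray (D.Q k) w := by
    intro k
    rw [← D.emb_mk_apply v hv, ← D.emb_mk_apply w hw, hxy]
  have hnv : ‖v‖ ≠ 0 := norm_ne_zero_iff.2 hv
  have hnw : ‖w‖ ≠ 0 := norm_ne_zero_iff.2 hw
  have key := D.inj (‖v‖⁻¹ • v) (‖w‖⁻¹ • w)
    (by
      rw [real_inner_smul_left, real_inner_smul_right, real_inner_self_eq_norm_sq]
      field_simp)
    (by
      rw [real_inner_smul_left, real_inner_smul_right, real_inner_self_eq_norm_sq]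
      field_simp)
    (by
      intro k
      rw [map_smul, map_smul, real_inner_smul_left, real_inner_smul_right, real_inner_smul_left,
        real_inner_smul_right]
      have := h1 k
      unfold ray at this
      rw [real_inner_self_eq_norm_sq, real_inner_self_eq_norm_sq] at this
      field_simp at this ⊢
      linarith)
  rw [mk_eq_mk]
  rcases key with hk | hk
  · refine ⟨‖v‖ * ‖w‖⁻¹, ?_⟩
    rw [mul_smul, hk, smul_smul, mul_inv_cancel₀ hnv, one_smul]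
  · refine ⟨-(‖v‖ * ‖w‖⁻¹), ?_⟩
    rw [neg_smul, mul_smul, hk, smul_neg, neg_neg, smul_smul, mul_inv_cancel₀ hnv, one_smul]

lemma QuadData.contMDiff_emb : ContMDiff (𝓡 3) (𝓡 (n + 1)) ∞ D.emb :=
  contMDiff_of_charts D.contDiff_emb

theorem QuadData.isSmoothEmb : IsSmoothEmb E3 D.emb := by
  refine ⟨D.contMDiff_emb, ?_, ?_⟩
  · intro x
    exact D.injective_fderiv _ _
  · exact (D.contMDiff_emb.continuous.isClosedEmbedding D.injective_emb).isEmbedding

theorem QuadData.isSubstantial : IsSubstantial D.emb := by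
  intro p c hp
  by_contra hcon
  push Not at hcon
  apply hp
  apply D.sub p c
  intro v
  by_cases hv : v = 0
  · subst hv
    simp
  · have h1 := hcon (RP3.mk v hv)
    have h2 : (⟪p, D.emb (RP3.mk v hv)⟫ : ℝ) = ∑ k, p k * ray (D.Q k) v := by
      rw [PiLp.inner_apply]
      refine Finset.sum_congr rfl fun k _ => ?_
      rw [D.emb_mk_apply]
      simp [mul_comm]
    have h3 : ∑ k, p k * ray (D.Q k) v = c := by
      rw [← h2]
      exact h1
    rw [← h3, Finset.sum_mul]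
    refine Finset.sum_congr rfl fun k _ => ?_
    have := inner_self_ne hv
    unfold ray
    field_simp

/-- The symmetric operator representing the distance function from `p`. -/
def QuadData.distOp (p : EuclideanSpace ℝ (Fin (n + 1))) : E4 →L[ℝ] E4 :=
  (‖p‖ ^ 2 + 1) • ContinuousLinearMap.id ℝ E4 - (2 : ℝ) • ∑ k, p k • D.Q k

lemma QuadData.distOp_symm (p : EuclideanSpace ℝ (Fin (n + 1))) (x y : E4) :
    (⟪D.distOp p x, y⟫ : ℝ) = ⟪x, D.distOp p y⟫ := by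
  unfold QuadData.distOp
  simp only [sub_apply, smul_apply,
    ContinuousLinearMap.id_apply, sum_apply, inner_sub_left, inner_sub_right,
    real_inner_smul_left, real_inner_smul_right, sum_inner, inner_sum, D.symm]

lemma QuadData.dist_eq (p : EuclideanSpace ℝ (Fin (n + 1))) (v : E4) (hv : v ≠ 0) :
    ‖p - D.emb (RP3.mk v hv)‖ ^ 2 = ray (D.distOp p) v := by
  rw [norm_sub_sq_real, D.norm_emb]
  have h2 : (⟪p, D.emb (RP3.mk v hv)⟫ : ℝ) = ∑ k, p k * ray (D.Q k) v := by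
    rw [PiLp.inner_apply]
    refine Finset.sum_congr rfl fun k _ => ?_
    rw [D.emb_mk_apply]
    simp [mul_comm]
  rw [h2]
  have h3 : ∑ k, p k * ray (D.Q k) v = (∑ k, p k * ⟪D.Q k v, v⟫) / (⟪v, v⟫ : ℝ) := by
    rw [Finset.sum_div]
    refine Finset.sum_congr rfl fun k _ => ?_
    unfold ray
    ring
  rw [h3]
  have hvv := inner_self_ne hv
  have h4 : (⟪D.distOp p v, v⟫ : ℝ)
      = (‖p‖ ^ 2 + 1) * ⟪v, v⟫ - 2 * ∑ k, p k * ⟪D.Q k v, v⟫ := by
    unfold QuadData.distOp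
    simp only [sub_apply, smul_apply,
      ContinuousLinearMap.id_apply, sum_apply, inner_sub_left,
      real_inner_smul_left, sum_inner]
  unfold ray
  rw [h4]
  field_simp
  ring

theorem QuadData.isTaut : IsTaut E3 4 D.emb := by
  intro p hM
  exact encard_critical (A := D.distOp p) (D.distOp_symm p)
    (fun v hv => D.dist_eq p v hv) hM

end Pool.Agent.Work.MP_cd2c38_gt
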