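import Pool.Agent.Work.MP_cd2c38_gt.RP3Proofs

/-!
# `RP3` as a compact smooth manifold
-/

noncomputable section

open scoped Manifold ContDiff LinearAlgebra.Projectivization Topology
open Set Topology

namespace Pool.Agent.Work.MP_cd2c38_gt

/-- `RP3` is a smooth (even analytic) manifold. -/
instance : IsManifold 𝓘(ℝ, E3) ω RP3 := isManifold_RP3

instance : IsManifold 𝓘(ℝ, E3) ∞ RP3 := IsManifold.of_le (n := ω) le_top

instance : CompactSpace RP3 := compactSpace_RP3

end Pool.Agent.Work.MP_cd2c38_gt
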