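import Pool.Agent.Work.MP_cd2c38_gt.RP3Lemmas

/-!
# The affine charts of `RP3`
-/

noncomputable section

open scoped Manifold ContDiff LinearAlgebra.Projectivization Topology
open Set Topology

namespace Pool.Agent.Work.MP_cd2c38_gt

/-- The `i`-th affine chart of `RP3`. -/
def affChart (i : Fin 4) : OpenPartialHomeomorph RP3 E3 where
  toFun := toAff i
  invFun := ofAff i
  source := chartDom i
  target := univ
  map_source' := fun _ _ => mem_univ _
  map_target' := fun x _ => ofAff_mem_chartDom i x
  left_inv' := ofAff_toAff i
  right_inv' := fun x _ => toAff_ofAff i x
  open_source := isOpen_chartDom i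
  open_target := isOpen_univ
  continuousOn_toFun := continuousOn_toAff i
  continuousOn_invFun := (continuous_ofAff i).continuousOn

/-- A coordinate which does not vanish on the line `x`. -/
def coordIdx (x : RP3) : Fin 4 := (exists_coord x).choose

lemma mem_chartDom_coordIdx (x : RP3) : x ∈ chartDom (coordIdx x) := (exists_coord x).choose_spec

/-- The atlas of the four affine charts. -/
instance : ChartedSpace E3 RP3 where
  atlas := range affChart
  chartAt x := affChart (coordIdx x)
  mem_chart_source x := mem_chartDom_coordIdx x
  chart_mem_atlas x := mem_range_self _

end Pool.Agent.Work.MP_cd2c38_gt
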