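import Pool.Agent.Work.MP_cd2c38_gt.RP3Pre

/-!
# Lemmas on the affine charts of `RP3`
-/

noncomputable section

open scoped Manifold ContDiff LinearAlgebra.Projectivization Topology
open Set Topology

namespace Pool.Agent.Work.MP_cd2c38_gt

@[simp] lemma homog_same (i : Fin 4) (x : E3) : homog i x i = 1 := by
  simp [homog]

@[simp] lemma homog_succAbove (i : Fin 4) (x : E3) (j : Fin 3) :
    homog i x (i.succAbove j) = x j := by
  simp [homog]

@[simp] lemma dehomog_apply (i : Fin 4) (v : E4) (j : Fin 3) :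
    dehomog i v j = v (i.succAbove j) / v i := rfl

lemma dehomog_homog (i : Fin 4) (x : E3) : dehomog i (homog i x) = x := by
  ext j
  simp

lemma homog_dehomog (i : Fin 4) (v : E4) (hv : v i ≠ 0) :
    homog i (dehomog i v) = (v i)⁻¹ • v := by
  ext j
  rcases Fin.eq_self_or_eq_succAbove i j with rfl | ⟨k, rfl⟩
  · simp [hv]
  · simp [div_eq_inv_mul]

lemma dehomog_smul (i : Fin 4) (v : E4) (t : ℝ) (ht : t ≠ 0) :
    dehomog i (t • v) = dehomog i v := by
  ext j
  simp [mul_div_mul_left _ _ ht]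

lemma rep_mk (v : E4) (hv : v ≠ 0) :
    ∃ t : ℝ, t ≠ 0 ∧ Projectivization.rep (K := ℝ) (V := E4) (RP3.mk v hv) = t • v := by
  obtain ⟨a, ha⟩ := Projectivization.exists_smul_eq_mk_rep ℝ v hv
  exact ⟨a, a.ne_zero, ha.symm⟩

lemma mk_mem_chartDom (i : Fin 4) (v : E4) (hv : v ≠ 0) :
    RP3.mk v hv ∈ chartDom i ↔ v i ≠ 0 := by
  obtain ⟨t, ht, h⟩ := rep_mk v hv
  simp only [chartDom, mem_ofPred_eq, h]
  simp [ht]

lemma toAff_mk (i : Fin 4) (v : E4) (hv : v ≠ 0) :
    toAff i (RP3.mk v hv) = dehomog i v := by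
  obtain ⟨t, ht, h⟩ := rep_mk v hv
  simp only [toAff, h, dehomog_smul i v t ht]

lemma mk_eq_mk (v w : E4) (hv : v ≠ 0) (hw : w ≠ 0) :
    RP3.mk v hv = RP3.mk w hw ↔ ∃ a : ℝ, a • w = v :=
  Projectivization.mk_eq_mk_iff' ℝ v w hv hw

lemma exists_mk (x : RP3) : ∃ v : E4, ∃ hv : v ≠ 0, x = RP3.mk v hv :=
  ⟨Projectivization.rep x, Projectivization.rep_nonzero x, (Projectivization.mk_rep x).symm⟩

lemma isQuotientMap_mk :
    IsQuotientMap (fun v : {v : E4 // v ≠ 0} => RP3.mk v.1 v.2) :=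
  ⟨⟨rfl⟩, fun x => by
    obtain ⟨v, hv, rfl⟩ := exists_mk x
    exact ⟨⟨v, hv⟩, rfl⟩⟩

lemma continuous_homog (i : Fin 4) : Continuous (homog i) := by
  unfold homog
  refine (PiLp.continuous_toLp 2 _).comp ?_
  refine continuous_pi fun j => ?_
  rcases Fin.eq_self_or_eq_succAbove i j with rfl | ⟨k, rfl⟩
  · simp only [Fin.insertNth_apply_same]; exact continuous_const
  · simp only [Fin.insertNth_apply_succAbove]; fun_prop

lemma continuous_ofAff (i : Fin 4) : Continuous (ofAff i) :=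
  isQuotientMap_mk.continuous.comp
    (Continuous.subtype_mk (continuous_homog i) (fun x => homog_ne_zero i x))

lemma isOpen_chartDom (i : Fin 4) : IsOpen (chartDom i) := by
  rw [← isQuotientMap_mk.isOpen_preimage]
  have : (fun v : {v : E4 // v ≠ 0} => RP3.mk v.1 v.2) ⁻¹' chartDom i
      = {v : {v : E4 // v ≠ 0} | v.1 i ≠ 0} := by
    ext v
    exact mk_mem_chartDom i v.1 v.2
  rw [this]
  exact isOpen_ne_fun (by fun_prop) continuous_const

lemma continuousOn_toAff (i : Fin 4) : ContinuousOn (toAff i) (chartDom i) := by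
  rw [isQuotientMap_mk.continuousOn_isOpen_iff (isOpen_chartDom i)]
  have h : ContinuousOn (fun v : {v : E4 // v ≠ 0} => dehomog i v.1)
      ((fun v : {v : E4 // v ≠ 0} => RP3.mk v.1 v.2) ⁻¹' chartDom i) := by
    unfold dehomog
    refine (PiLp.continuous_toLp 2 _).comp_continuousOn ?_
    refine continuousOn_pi.2 fun j => ?_
    refine ContinuousOn.div (by fun_prop) (by fun_prop) ?_
    intro v hv
    exact (mk_mem_chartDom i v.1 v.2).1 hv
  refine h.congr ?_
  intro v _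
  exact toAff_mk i v.1 v.2

lemma ofAff_mem_chartDom (i : Fin 4) (x : E3) : ofAff i x ∈ chartDom i := by
  show RP3.mk _ _ ∈ chartDom i
  rw [mk_mem_chartDom]
  simp

lemma ofAff_toAff (i : Fin 4) (x : RP3) (hx : x ∈ chartDom i) : ofAff i (toAff i x) = x := by
  obtain ⟨v, hv, rfl⟩ := exists_mk x
  have hvi : v i ≠ 0 := (mk_mem_chartDom i v hv).1 hx
  rw [toAff_mk]
  show RP3.mk _ _ = _
  rw [mk_eq_mk]
  exact ⟨(v i)⁻¹, (homog_dehomog i v hvi).symm⟩

lemma toAff_ofAff (i : Fin 4) (x : E3) : toAff i (ofAff i x) = x := by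
  show toAff i (RP3.mk _ _) = _
  rw [toAff_mk, dehomog_homog]

lemma exists_coord (x : RP3) : ∃ i : Fin 4, x ∈ chartDom i := by
  obtain ⟨v, hv, rfl⟩ := exists_mk x
  by_contra h
  push Not at h
  apply hv
  ext i
  have := h i
  rw [mk_mem_chartDom] at this
  push Not at this
  simpa using this

end Pool.Agent.Work.MP_cd2c38_gt
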