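import Mathlib

/-!
# Real projective 3-space as a smooth manifold

The points of `RP3` are the lines through the origin of `ℝ⁴` (Mathlib's `Projectivization`),
the topology is the quotient topology from `ℝ⁴ \ {0}` and the smooth structure is given by the
four standard affine charts `[v] ↦ (v j / v i)_{j ≠ i}`.
-/

noncomputable section

open scoped Manifold ContDiff LinearAlgebra.Projectivization Topology
open Set Topology

namespace Pool.Agent.Work.MP_cd2c38_gt

/-- Euclidean 4-space. -/
abbrev E4 : Type := EuclideanSpace ℝ (Fin 4)

/-- Euclidean 3-space. -/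
abbrev E3 : Type := EuclideanSpace ℝ (Fin 3)

/-- Real projective 3-space: the set of lines through `0` in `ℝ⁴`. -/
def RP3 : Type := ℙ ℝ E4

/-- The line spanned by a nonzero vector. -/
def RP3.mk (v : E4) (hv : v ≠ 0) : RP3 := Projectivization.mk ℝ v hv

/-- The quotient topology coming from `ℝ⁴ \ {0}`. -/
instance : TopologicalSpace RP3 :=
  TopologicalSpace.coinduced (fun v : {v : E4 // v ≠ 0} => RP3.mk v.1 v.2) inferInstance

/-- The affine inclusion `x ↦ (x with a 1 inserted at position i)` of `ℝ³` into `ℝ⁴`. -/
def homog (i : Fin 4) (x : E3) : E4 :=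
  WithLp.toLp 2 (Fin.insertNth (α := fun _ => ℝ) i 1 (fun j => x j))

/-- The affine coordinates `(v j / v i)_{j ≠ i}` of a vector `v`. -/
def dehomog (i : Fin 4) (v : E4) : E3 :=
  WithLp.toLp 2 (fun j : Fin 3 => v (i.succAbove j) / v i)

/-- The domain of the `i`-th affine chart: the lines on which the `i`-th coordinate does not
vanish. -/
def chartDom (i : Fin 4) : Set RP3 := {x | Projectivization.rep x i ≠ 0}

/-- The `i`-th affine coordinates of a point of `RP3`. -/
def toAff (i : Fin 4) (x : RP3) : E3 := dehomog i (Projectivization.rep x)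

lemma homog_ne_zero (i : Fin 4) (x : E3) : homog i x ≠ 0 := by
  intro h
  have := congrArg (fun v : E4 => v i) h
  simp [homog] at this

/-- The inverse of the `i`-th affine chart. -/
def ofAff (i : Fin 4) (x : E3) : RP3 := RP3.mk (homog i x) (homog_ne_zero i x)

end Pool.Agent.Work.MP_cd2c38_gt
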