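import Pool.Agent.Work.MP_cd2c38_gt.RP3Charts

/-!
# `RP3` is a compact smooth manifold: proofs
-/

noncomputable section

open scoped Manifold ContDiff LinearAlgebra.Projectivization Topology
open Set Topology

namespace Pool.Agent.Work.MP_cd2c38_gt

lemma chartAt_eq (x : RP3) : chartAt E3 x = affChart (coordIdx x) := rfl

/-- The linear part of `homog i`: insert a `0` at position `i`. -/
def ins (i : Fin 4) : E3 →L[ℝ] E4 :=
  LinearMap.toContinuousLinearMap
    { toFun := fun x => WithLp.toLp 2 (Fin.insertNth (α := fun _ => ℝ) i 0 (fun j => x j))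
      map_add' := fun x y => by
        ext j
        rcases Fin.eq_self_or_eq_succAbove i j with rfl | ⟨k, rfl⟩ <;> simp
      map_smul' := fun t x => by
        ext j
        rcases Fin.eq_self_or_eq_succAbove i j with rfl | ⟨k, rfl⟩ <;> simp }

@[simp] lemma ins_same (i : Fin 4) (x : E3) : ins i x i = 0 := by
  simp [ins]

@[simp] lemma ins_succAbove (i : Fin 4) (x : E3) (j : Fin 3) :
    ins i x (i.succAbove j) = x j := by
  simp [ins]

lemma homog_eq (i : Fin 4) (x : E3) : homog i x = EuclideanSpace.single i 1 + ins i x := by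
  ext j
  rcases Fin.eq_self_or_eq_succAbove i j with rfl | ⟨k, rfl⟩ <;>
    simp [Fin.succAbove_ne]

lemma homog_eq_fun (i : Fin 4) :
    homog i = fun x => EuclideanSpace.single i 1 + ins i x := funext (homog_eq i)

lemma homog_add (i : Fin 4) (x y : E3) : homog i (x + y) = homog i x + ins i y := by
  rw [homog_eq, homog_eq, map_add, add_assoc]

lemma contDiff_homog (i : Fin 4) : ContDiff ℝ ω (homog i) := by
  rw [homog_eq_fun]
  exact contDiff_const.add (ins i).contDiff

lemma hasFDerivAt_homog (i : Fin 4) (x : E3) : HasFDerivAt (homog i) (ins i) x := by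
  rw [homog_eq_fun]
  exact (ins i).hasFDerivAt.const_add _

/-- `RP3` is a smooth (even analytic) manifold. -/
lemma isManifold_RP3 : IsManifold (𝓡 3) ω RP3 := by
  refine isManifold_of_contDiffOn (𝓡 3) ω RP3 ?_
  rintro e e' ⟨i, rfl⟩ ⟨j, rfl⟩
  have hset : (𝓡 3).symm ⁻¹' ((affChart i).symm.trans (affChart j)).source ∩ range (𝓡 3)
      = {x : E3 | homog i x j ≠ 0} := by
    ext x
    simp only [OpenPartialHomeomorph.trans_source, OpenPartialHomeomorph.symm_source,
      modelWithCornersSelf_coe_symm, modelWithCornersSelf_coe, range_id, inter_univ,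
      preimage_id_eq, id_eq, mem_inter_iff, mem_preimage, mem_ofPred_eq]
    constructor
    · rintro ⟨_, h⟩
      exact (mk_mem_chartDom j _ (homog_ne_zero i x)).1 h
    · intro h
      exact ⟨mem_univ _, (mk_mem_chartDom j _ (homog_ne_zero i x)).2 h⟩
  rw [hset]
  have hfun : ∀ x : E3, ((𝓡 3) ∘ ((affChart i).symm.trans (affChart j)) ∘ (𝓡 3).symm) x
      = dehomog j (homog i x) := fun x => toAff_mk j _ _
  refine ContDiffOn.congr ?_ (fun x _ => hfun x)
  unfold dehomog
  have h1 : ∀ k : Fin 4, ContDiff ℝ ω (fun x : E3 => homog i x k) := by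
    intro k
    exact (EuclideanSpace.proj (𝕜 := ℝ) k).contDiff.comp (contDiff_homog i)
  refine (PiLp.contDiff_toLp).comp_contDiffOn ?_
  refine contDiffOn_pi.2 fun k => ?_
  exact ContDiffOn.div (h1 _).contDiffOn (h1 j).contDiffOn (fun x hx => hx)

lemma sphere_ne_zero (v : Metric.sphere (0 : E4) 1) : (v : E4) ≠ 0 := by
  intro h0
  have := v.2
  rw [h0] at this
  simp at this

lemma compactSpace_RP3 : CompactSpace RP3 := by
  have h : Continuous (fun v : Metric.sphere (0 : E4) 1 => RP3.mk v.1 (sphere_ne_zero v)) :=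
    isQuotientMap_mk.continuous.comp
      (Continuous.subtype_mk continuous_subtype_val (fun v => sphere_ne_zero v))
  have hs : Function.Surjective
      (fun v : Metric.sphere (0 : E4) 1 => RP3.mk v.1 (sphere_ne_zero v)) := by
    intro x
    obtain ⟨v, hv, rfl⟩ := exists_mk x
    refine ⟨⟨‖v‖⁻¹ • v, by simp [norm_smul, hv]⟩, ?_⟩
    show RP3.mk _ _ = _
    rw [mk_eq_mk]
    exact ⟨‖v‖⁻¹, rfl⟩
  exact hs.compactSpace h

end Pool.Agent.Work.MP_cd2c38_gt
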