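import Pool.Agent.Work.MP_cd2c38_gt.RP3
import Pool.Agent.Work.MP_cd2c38_gt.Defs

/-!
# Rayleigh quotients on `RP3`

If `A` is a symmetric operator on `ℝ⁴` and `h [v] = ⟪A v, v⟫ / ⟪v, v⟫` is a Morse function on
`RP3`, then it has exactly four critical points.
-/

noncomputable section

open scoped Manifold ContDiff RealInnerProductSpace
open Set Topology

namespace Pool.Agent.Work.MP_cd2c38_gt

/-- The Rayleigh quotient. -/
def ray (A : E4 →L[ℝ] E4) (v : E4) : ℝ := ⟪A v, v⟫ / ⟪v, v⟫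

lemma inner_self_ne {v : E4} (hv : v ≠ 0) : (⟪v, v⟫ : ℝ) ≠ 0 := by
  simpa using hv

lemma differentiableAt_ray (A : E4 →L[ℝ] E4) {v : E4} (hv : v ≠ 0) :
    DifferentiableAt ℝ (ray A) v := by
  unfold ray
  simp only [div_eq_mul_inv]
  refine DifferentiableAt.mul ?_ (DifferentiableAt.inv ?_ (inner_self_ne hv))
  · exact (A.differentiableAt).inner ℝ differentiableAt_id
  · exact (differentiableAt_id).inner ℝ differentiableAt_id

lemma hasLineDerivAt_ray (A : E4 →L[ℝ] E4) (hA : ∀ x y : E4, ⟪A x, y⟫ = ⟪x, A y⟫)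
    {v : E4} (hv : v ≠ 0) (w : E4) :
    HasLineDerivAt ℝ (ray A) (2 / ⟪v, v⟫ * ⟪A v - ray A v • v, w⟫) v w := by
  unfold HasLineDerivAt
  have hnum : HasDerivAt (fun t : ℝ => (⟪A (v + t • w), v + t • w⟫ : ℝ)) (2 * ⟪A v, w⟫) 0 := by
    have h1 : HasDerivAt (fun t : ℝ => v + t • w) w 0 := by
      simpa using ((hasDerivAt_id (0 : ℝ)).smul_const w).const_add v
    have h2 : HasDerivAt (fun t : ℝ => A (v + t • w)) (A w) 0 :=
      A.hasFDerivAt.comp_hasDerivAt 0 h1
    have h3 := h2.inner ℝ h1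
    simp only [zero_smul, add_zero] at h3
    have e : (⟪A v, w⟫ + ⟪A w, v⟫ : ℝ) = 2 * ⟪A v, w⟫ := by
      rw [hA w v, real_inner_comm w (A v)]
      ring
    rw [e] at h3
    exact h3
  have hden : HasDerivAt (fun t : ℝ => (⟪v + t • w, v + t • w⟫ : ℝ)) (2 * ⟪v, w⟫) 0 := by
    have h1 : HasDerivAt (fun t : ℝ => v + t • w) w 0 := by
      simpa using ((hasDerivAt_id (0 : ℝ)).smul_const w).const_add v
    have h3 := h1.inner ℝ h1
    simp only [zero_smul, add_zero] at h3
    have e : (⟪v, w⟫ + ⟪w, v⟫ : ℝ) = 2 * ⟪v, w⟫ := by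
      rw [real_inner_comm w v]
      ring
    rw [e] at h3
    exact h3
  have hne : (⟪v + (0 : ℝ) • w, v + (0 : ℝ) • w⟫ : ℝ) ≠ 0 := by
    simpa using hv
  have h := hnum.div hden hne
  simp only [zero_smul, add_zero] at h
  have hv' := inner_self_ne hv
  have e : (2 * ⟪A v, w⟫ * ⟪v, v⟫ - ⟪A v, v⟫ * (2 * ⟪v, w⟫)) / (⟪v, v⟫ : ℝ) ^ 2
      = 2 / ⟪v, v⟫ * ⟪A v - ray A v • v, w⟫ := by
    rw [inner_sub_left, real_inner_smul_left]
    unfold ray
    field_simp
  rw [← e]
  exact h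

/-- The Rayleigh quotient in the `i`-th affine chart. -/
def rayChart (A : E4 →L[ℝ] E4) (i : Fin 4) (z : E3) : ℝ := ray A (homog i z)

lemma contDiff_rayChart (A : E4 →L[ℝ] E4) (i : Fin 4) : ContDiff ℝ ω (rayChart A i) := by
  unfold rayChart ray
  have h := contDiff_homog i
  refine ContDiff.div ((A.contDiff.comp h).inner ℝ h) (h.inner ℝ h) ?_
  intro z
  exact inner_self_ne (homog_ne_zero i z)

lemma fderiv_rayChart (A : E4 →L[ℝ] E4) (hA : ∀ x y : E4, ⟪A x, y⟫ = ⟪x, A y⟫)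
    (i : Fin 4) (z δ : E3) :
    fderiv ℝ (rayChart A i) z δ =
      2 / ⟪homog i z, homog i z⟫ *
        ⟪A (homog i z) - ray A (homog i z) • homog i z, ins i δ⟫ := by
  have h1 := hasLineDerivAt_ray A hA (homog_ne_zero i z) (ins i δ)
  have h2 : HasFDerivAt (rayChart A i) ((fderiv ℝ (ray A) (homog i z)).comp (ins i)) z :=
    (differentiableAt_ray A (homog_ne_zero i z)).hasFDerivAt.comp z (hasFDerivAt_homog i z)
  rw [h2.fderiv]
  have h3 := (differentiableAt_ray A (homog_ne_zero i z)).hasFDerivAt.hasLineDerivAt (ins i δ)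
  exact h3.unique h1

lemma exists_decomp (i : Fin 4) (z : E3) (w : E4) :
    ∃ δ : E3, w = (w i) • homog i z + ins i δ := by
  refine ⟨WithLp.toLp 2 (fun j : Fin 3 => w (i.succAbove j) - w i * z j), ?_⟩
  ext j
  rcases Fin.eq_self_or_eq_succAbove i j with rfl | ⟨k, rfl⟩ <;> simp

/-- In each affine chart the critical points of the Rayleigh quotient are the eigenvectors. -/
lemma fderiv_rayChart_eq_zero_iff (A : E4 →L[ℝ] E4) (hA : ∀ x y : E4, ⟪A x, y⟫ = ⟪x, A y⟫)
    (i : Fin 4) (z : E3) :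
    fderiv ℝ (rayChart A i) z = 0 ↔ ∃ μ : ℝ, A (homog i z) = μ • homog i z := by
  have hv := inner_self_ne (homog_ne_zero i z)
  constructor
  · intro h
    refine ⟨ray A (homog i z), ?_⟩
    have h1 : ∀ δ : E3, (⟪A (homog i z) - ray A (homog i z) • homog i z, ins i δ⟫ : ℝ) = 0 := by
      intro δ
      have h2 := fderiv_rayChart A hA i z δ
      rw [h] at h2
      have h3 : (2 / ⟪homog i z, homog i z⟫ : ℝ) ≠ 0 := div_ne_zero two_ne_zero hv
      have h4 := h2.symm
      simp only [zero_apply] at h4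
      exact (mul_eq_zero.1 h4).resolve_left h3
    have h2 : (⟪A (homog i z) - ray A (homog i z) • homog i z, homog i z⟫ : ℝ) = 0 := by
      rw [inner_sub_left, real_inner_smul_left]
      unfold ray
      field_simp
      ring
    have h3 : ∀ w : E4, (⟪A (homog i z) - ray A (homog i z) • homog i z, w⟫ : ℝ) = 0 := by
      intro w
      obtain ⟨δ, hδ⟩ := exists_decomp i z w
      rw [hδ, inner_add_right, real_inner_smul_right, h1, h2]
      simp
    have h4 := h3 (A (homog i z) - ray A (homog i z) • homog i z)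
    rw [inner_self_eq_zero] at h4
    exact sub_eq_zero.1 h4
  · rintro ⟨μ, hμ⟩
    have hr : ray A (homog i z) = μ := by
      unfold ray
      rw [hμ, real_inner_smul_left]
      field_simp
    ext δ
    rw [fderiv_rayChart A hA i z δ, hr, hμ]
    simp

/-- If the eigenspace of `A` through `homog i z` contains a second, independent, eigenvector, the
second derivative of the Rayleigh quotient in the `i`-th chart is degenerate at `z`. -/
lemma hessian_degenerate (A : E4 →L[ℝ] E4) (hA : ∀ x y : E4, ⟪A x, y⟫ = ⟪x, A y⟫)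
    (i : Fin 4) (z : E3) (μ : ℝ) (hz : A (homog i z) = μ • homog i z)
    (w : E4) (hw : A w = μ • w) (hind : ∀ c : ℝ, w ≠ c • homog i z) :
    ∃ δ : E3, δ ≠ 0 ∧ fderiv ℝ (fderiv ℝ (rayChart A i)) z δ = 0 := by
  obtain ⟨δ, hδ⟩ := exists_decomp i z w
  refine ⟨δ, ?_, ?_⟩
  · rintro rfl
    apply hind (w i)
    rw [hδ]
    simp
  · have hAδ : A (ins i δ) = μ • ins i δ := by
      have : ins i δ = w - (w i) • homog i z := by
        rw [eq_sub_iff_add_eq, add_comm]
        exact hδ.symm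
      rw [this, map_sub, map_smul, hw, hz, smul_sub, smul_comm]
    have hline : ∀ t : ℝ, fderiv ℝ (rayChart A i) (z + t • δ) = 0 := by
      intro t
      rw [fderiv_rayChart_eq_zero_iff A hA]
      refine ⟨μ, ?_⟩
      rw [homog_add, map_add, map_smul, map_smul, hz, hAδ, smul_add, smul_comm t μ]
    have hd : DifferentiableAt ℝ (fderiv ℝ (rayChart A i)) z := by
      have h1 : ContDiff ℝ 1 (fderiv ℝ (rayChart A i)) :=
        ((contDiff_rayChart A i).of_le (m := 2) le_top).fderiv_right (m := 1) (by norm_num)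
      exact (h1.differentiable one_ne_zero) z
    have h1 := hd.hasFDerivAt.hasLineDerivAt δ
    have h2 : HasLineDerivAt ℝ (fderiv ℝ (rayChart A i)) 0 z δ := by
      unfold HasLineDerivAt
      simp only [hline]
      exact hasDerivAt_const _ _
    exact h1.unique h2

section OnRP3

variable {A : E4 →L[ℝ] E4} {h : RP3 → ℝ}

lemma comp_chartAt_symm (hh : ∀ v (hv : v ≠ 0), h (RP3.mk v hv) = ray A v) (x : RP3) :
    h ∘ (chartAt E3 x).symm = rayChart A (coordIdx x) := by
  ext z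
  exact hh _ _

lemma chartAt_apply_eq (x : RP3) : chartAt E3 x x = toAff (coordIdx x) x := rfl

lemma continuous_of_charts {F : Type*} [TopologicalSpace F] {f : RP3 → F}
    (hf : ∀ i, Continuous (f ∘ ofAff i)) : Continuous f := by
  rw [continuous_iff_continuousAt]
  intro x
  have hx := mem_chartDom_coordIdx x
  have h1 : ContinuousAt ((f ∘ ofAff (coordIdx x)) ∘ toAff (coordIdx x)) x :=
    (hf (coordIdx x)).continuousAt.comp
      ((continuousOn_toAff (coordIdx x)).continuousAt ((isOpen_chartDom _).mem_nhds hx))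
  refine h1.congr ?_
  filter_upwards [(isOpen_chartDom (coordIdx x)).mem_nhds hx] with y hy
  exact congrArg f ((affChart (coordIdx x)).left_inv hy)

lemma contMDiff_of_charts {F : Type*} [NormedAddCommGroup F] [NormedSpace ℝ F] {f : RP3 → F}
    (hf : ∀ i, ContDiff ℝ ∞ (f ∘ ofAff i)) : ContMDiff (𝓡 3) 𝓘(ℝ, F) ∞ f := by
  intro x
  rw [contMDiffAt_iff]
  refine ⟨(continuous_of_charts fun i => (hf i).continuous).continuousAt, ?_⟩
  exact (hf (coordIdx x)).contDiffAt.contDiffWithinAt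

lemma contMDiff_of_ray (hh : ∀ v (hv : v ≠ 0), h (RP3.mk v hv) = ray A v) :
    ContMDiff (𝓡 3) 𝓘(ℝ, ℝ) ∞ h := by
  refine contMDiff_of_charts fun i => ?_
  have : h ∘ ofAff i = rayChart A i := by
    ext z
    exact hh _ _
  rw [this]
  exact (contDiff_rayChart A i).of_le le_top

lemma mfderiv_eq_of_charts {F : Type*} [NormedAddCommGroup F] [NormedSpace ℝ F] {f : RP3 → F}
    (hf : ∀ i, ContDiff ℝ ∞ (f ∘ ofAff i)) (x : RP3) :
    mfderiv (𝓡 3) 𝓘(ℝ, F) f x = fderiv ℝ (f ∘ ofAff (coordIdx x)) (toAff (coordIdx x) x) := by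
  have h1 : MDifferentiableAt (𝓡 3) 𝓘(ℝ, F) f x :=
    (contMDiff_of_charts hf x).mdifferentiableAt (by norm_num)
  rw [h1.mfderiv]
  simp only [modelWithCornersSelf_coe, range_id, fderivWithin_univ]
  rfl

lemma isCriticalPt_iff (hA : ∀ x y : E4, ⟪A x, y⟫ = ⟪x, A y⟫)
    (hh : ∀ v (hv : v ≠ 0), h (RP3.mk v hv) = ray A v) (v : E4) (hv : v ≠ 0) :
    IsCriticalPt E3 h (RP3.mk v hv) ↔ ∃ μ : ℝ, A v = μ • v := by
  have hf : ∀ i, h ∘ ofAff i = rayChart A i := fun i => by
    ext z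
    exact hh _ _
  have hc : ∀ i, ContDiff ℝ ∞ (h ∘ ofAff i) := fun i => by
    rw [hf i]
    exact (contDiff_rayChart A i).of_le le_top
  unfold IsCriticalPt
  rw [mfderiv_eq_of_charts hc, hf]
  have hvi := (mk_mem_chartDom _ v hv).1 (mem_chartDom_coordIdx (RP3.mk v hv))
  have key := fderiv_rayChart_eq_zero_iff A hA (coordIdx (RP3.mk v hv))
    (toAff (coordIdx (RP3.mk v hv)) (RP3.mk v hv))
  refine Iff.trans key ?_
  rw [toAff_mk, homog_dehomog _ _ hvi]
  constructor
  · rintro ⟨μ, hμ⟩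
    refine ⟨μ, ?_⟩
    rw [map_smul, smul_comm] at hμ
    exact smul_right_injective _ (inv_ne_zero hvi) hμ
  · rintro ⟨μ, hμ⟩
    exact ⟨μ, by rw [map_smul, hμ, smul_comm]⟩

/-- If the Rayleigh quotient is a Morse function, each eigenspace is one-dimensional. -/
lemma eigenspace_of_isMorse (hA : ∀ x y : E4, ⟪A x, y⟫ = ⟪x, A y⟫)
    (hh : ∀ v (hv : v ≠ 0), h (RP3.mk v hv) = ray A v) (hM : IsMorse E3 h)
    {v w : E4} (hv : v ≠ 0) {μ : ℝ} (hAv : A v = μ • v) (hAw : A w = μ • w) :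
    ∃ c : ℝ, w = c • v := by
  by_contra hcon
  push Not at hcon
  have hcr := (isCriticalPt_iff hA hh v hv).2 ⟨μ, hAv⟩
  have hnd := hM.2 (RP3.mk v hv) hcr
  have hvi := (mk_mem_chartDom _ v hv).1 (mem_chartDom_coordIdx (RP3.mk v hv))
  have e : homog (coordIdx (RP3.mk v hv)) (toAff (coordIdx (RP3.mk v hv)) (RP3.mk v hv))
      = (v (coordIdx (RP3.mk v hv)))⁻¹ • v := by
    rw [toAff_mk, homog_dehomog _ _ hvi]
  obtain ⟨δ, hδ, hδ0⟩ := hessian_degenerate A hA (coordIdx (RP3.mk v hv))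
    (toAff (coordIdx (RP3.mk v hv)) (RP3.mk v hv)) μ
    (by rw [e, map_smul, hAv, smul_comm]) w hAw
    (by
      intro c hc
      rw [e, smul_smul] at hc
      exact hcon _ hc)
  apply hδ
  apply hnd
  intro u
  unfold hessian
  rw [comp_chartAt_symm hh, chartAt_apply_eq, hδ0]
  rfl

/-- A Rayleigh quotient on `RP3` which is a Morse function has exactly four critical points. -/
theorem encard_critical (hA : ∀ x y : E4, ⟪A x, y⟫ = ⟪x, A y⟫)
    (hh : ∀ v (hv : v ≠ 0), h (RP3.mk v hv) = ray A v) (hM : IsMorse E3 h) :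
    {x : RP3 | IsCriticalPt E3 h x}.encard = 4 := by
  have hS : (A : E4 →ₗ[ℝ] E4).IsSymmetric := hA
  have hn : Module.finrank ℝ E4 = 4 := by simp
  set b := hS.eigenvectorBasis hn with hb
  set ev := hS.eigenvalues hn with hev
  have hAb : ∀ i, A (b i) = ev i • b i := fun i => by
    have := hS.apply_eigenvectorBasis hn i
    exact this
  have hb0 : ∀ i, b i ≠ 0 := fun i => b.orthonormal.ne_zero i
  have hinj : ∀ i j, ev i = ev j → i = j := by
    intro i j hij
    by_contra hne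
    obtain ⟨c, hc⟩ := eigenspace_of_isMorse hA hh hM (hb0 i) (hAb i) (w := b j)
      (by rw [hAb j, hij])
    have h1 : (⟪b i, b j⟫ : ℝ) = 0 := b.orthonormal.2 hne
    rw [hc, real_inner_smul_right] at h1
    have h2 : (⟪b i, b i⟫ : ℝ) ≠ 0 := inner_self_ne (hb0 i)
    have hc0 : c = 0 := (mul_eq_zero.1 h1).resolve_right h2
    rw [hc0, zero_smul] at hc
    exact hb0 j hc
  have hset : {x : RP3 | IsCriticalPt E3 h x} = range (fun i : Fin 4 => RP3.mk (b i) (hb0 i)) := by
    ext x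
    obtain ⟨v, hv, rfl⟩ := exists_mk x
    show IsCriticalPt E3 h (RP3.mk v hv) ↔ _
    rw [isCriticalPt_iff hA hh]
    constructor
    · rintro ⟨μ, hμ⟩
      have h1 : ∀ i, (ev i - μ) * ⟪b i, v⟫ = 0 := by
        intro i
        have e1 : (⟪A (b i), v⟫ : ℝ) = ev i * ⟪b i, v⟫ := by
          rw [hAb i, real_inner_smul_left]
        have e2 : (⟪A (b i), v⟫ : ℝ) = μ * ⟪b i, v⟫ := by
          rw [hA, hμ, real_inner_smul_right]
        rw [sub_mul, ← e1, ← e2, sub_self]
      obtain ⟨i, hi⟩ : ∃ i, (⟪b i, v⟫ : ℝ) ≠ 0 := by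
        by_contra hcon
        push Not at hcon
        apply hv
        have := b.sum_repr v
        rw [← this]
        refine Finset.sum_eq_zero fun i _ => ?_
        rw [b.repr_apply_apply, hcon i, zero_smul]
      have hμi : ev i = μ := by
        have := (mul_eq_zero.1 (h1 i)).resolve_right hi
        linarith
      obtain ⟨c, hc⟩ := eigenspace_of_isMorse hA hh hM hv hμ (w := b i) (by rw [hAb i, hμi])
      refine ⟨i, ?_⟩
      show RP3.mk _ _ = _
      rw [mk_eq_mk]
      exact ⟨c, hc.symm⟩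
    · rintro ⟨i, hi⟩
      have hi' : RP3.mk (b i) (hb0 i) = RP3.mk v hv := hi
      rw [mk_eq_mk] at hi'
      obtain ⟨a, ha⟩ := hi'
      have ha0 : a ≠ 0 := by
        rintro rfl
        exact hb0 i (by rw [← ha, zero_smul])
      refine ⟨ev i, ?_⟩
      have h1 := hAb i
      rw [← ha, map_smul, smul_comm] at h1
      exact smul_right_injective _ ha0 h1
  have hinj2 : Function.Injective (fun i : Fin 4 => RP3.mk (b i) (hb0 i)) := by
    intro i j hij
    by_contra hne
    have hij' : RP3.mk (b i) (hb0 i) = RP3.mk (b j) (hb0 j) := hij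
    rw [mk_eq_mk] at hij'
    obtain ⟨a, ha⟩ := hij'
    have h1 : (⟪b i, b j⟫ : ℝ) = 0 := b.orthonormal.2 hne
    rw [← ha, real_inner_smul_left] at h1
    have h2 : (⟪b j, b j⟫ : ℝ) ≠ 0 := inner_self_ne (hb0 j)
    have ha0 : a = 0 := (mul_eq_zero.1 h1).resolve_right h2
    rw [ha0, zero_smul] at ha
    exact hb0 i ha.symm
  rw [hset, ← image_univ, hinj2.encard_image, encard_univ]
  simp

end OnRP3

end Pool.Agent.Work.MP_cd2c38_gt
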